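import Pool.Agent.W851.BE.Stm

/-! Project BE, task BE-IRC: jumps of `Nw` and `Iw`. -/

set_option autoImplicit false

open Polynomial Topology Filter MeasureTheory
open scoped ENNReal

namespace Pool.Agent.W369.BE

open Pool.Agent.W95.BK Pool.Agent.W851.BE

universe u

section

variable {K : Type u} [NontriviallyNormedField K]

theorem vI_cont (f : RMap K) (a : K) (i : ℕ) : Continuous (fun t : ℝ => vI f a t i) := by
  unfold vI
  fun_prop

theorem vI_eq (f : RMap K) (a : K) {t : ℝ} (ht : 0 ≤ t) (i : ℕ) :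
    vI f a t i = max (‖(taylor a (f.P - C a * f.Q)).coeff i‖ * t ^ i)
      (‖(taylor a f.Q).coeff i‖ * t ^ (i + 1)) := by
  unfold vI
  rw [max_mul_of_nonneg _ _ (pow_nonneg ht i)]
  congr 1
  ring

/-- two terms with different exponents cannot be equal at a radius outside the value group -/
theorem term_eq [IsAlgClosed K] {r : ℝ} (hr : 0 < r) (hv : ¬ ∃ c : K, ‖c‖ = r) {c c' : K} {k l : ℕ}
    (hc : c ≠ 0) (hc' : c' ≠ 0) (h : ‖c‖ * r ^ k = ‖c'‖ * r ^ l) (hkl : k < l) : False := by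
  have h1 : ‖c / c'‖ = r ^ (l - k) := by
    have h2 : r ^ l = r ^ k * r ^ (l - k) := by
      rw [← pow_add]
      congr 1
      omega
    rw [h2] at h
    have h3 : r ^ k ≠ 0 := (pow_pos hr k).ne'
    have h4 : ‖c'‖ ≠ 0 := norm_ne_zero_iff.2 hc'
    rw [norm_div, div_eq_iff h4]
    have h5 : ‖c‖ * r ^ k = (r ^ (l - k) * ‖c'‖) * r ^ k := by
      rw [h]; ring
    exact mul_right_cancel₀ h3 h5
  obtain ⟨x, hx⟩ := IsAlgClosed.exists_pow_nat_eq (c / c') (show 0 < l - k by omega)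
  apply hv
  refine ⟨x, ?_⟩
  have h6 : ‖x‖ ^ (l - k) = r ^ (l - k) := by rw [← norm_pow, hx, h1]
  exact (pow_left_inj₀ (norm_nonneg x) hr.le (by omega)).1 h6

theorem term_eq' [IsAlgClosed K] {r M : ℝ} (hr : 0 < r) (hM : 0 < M) (hv : ¬ ∃ c : K, ‖c‖ = r)
    {c c' : K} {k l : ℕ} (h : ‖c‖ * r ^ k = M) (h' : ‖c'‖ * r ^ l = M) :
    k = l ∧ ‖c‖ = ‖c'‖ := by
  have hc : c ≠ 0 := by
    rintro rfl
    rw [norm_zero, zero_mul] at h
    exact hM.ne h
  have hc' : c' ≠ 0 := by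
    rintro rfl
    rw [norm_zero, zero_mul] at h'
    exact hM.ne h'
  have hkl : k = l := by
    rcases lt_trichotomy k l with h1 | h1 | h1
    · exact (term_eq hr hv hc hc' (h.trans h'.symm) h1).elim
    · exact h1
    · exact (term_eq hr hv hc' hc (h'.trans h.symm) h1).elim
  subst hkl
  refine ⟨rfl, ?_⟩
  have h3 : r ^ k ≠ 0 := (pow_pos hr k).ne'
  exact mul_right_cancel₀ h3 (h.trans h'.symm)

theorem ev_term [IsAlgClosed K] {r M : ℝ} (hr : 0 < r) (hM : 0 < M) (hv : ¬ ∃ c : K, ‖c‖ = r)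
    {c c0 : K} {k κ : ℕ} (h : ‖c‖ * r ^ k ≤ M) (h0 : ‖c0‖ * r ^ κ = M) :
    ∀ᶠ t in 𝓝 r, ‖c‖ * t ^ k ≤ ‖c0‖ * t ^ κ := by
  rcases h.lt_or_eq with h1 | h1
  · have h2 : ContinuousAt (fun t : ℝ => ‖c‖ * t ^ k) r := by fun_prop
    have h3 : ContinuousAt (fun t : ℝ => ‖c0‖ * t ^ κ) r := by fun_prop
    rw [← h0] at h1
    exact (h2.eventually_lt h3 h1).mono fun t ht => ht.le
  · obtain ⟨e1, e2⟩ := term_eq' hr hM hv h1 h0
    rw [e1, e2]
    exact Eventually.of_forall fun t => le_refl _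

/-- eventually near `r` gives an interval -/
theorem interval_of_ev {p : ℝ → Prop} {r : ℝ} (h : ∀ᶠ t in 𝓝 r, p t) :
    ∃ r', r < r' ∧ ∀ t, r < t → t < r' → p t := by
  obtain ⟨ε, hε, hp⟩ := Metric.eventually_nhds_iff.1 h
  refine ⟨r + ε, by linarith, fun t h1 h2 => hp ?_⟩
  rw [Real.dist_eq, abs_of_pos (by linarith)]
  linarith

end

theorem irc (hN : S_NWI.{u}) : S_IRC.{u} := by
  intro K _ _ _ f a r hr
  obtain ⟨⟨hM, -, hI, -, -, -, -, hlt⟩, -⟩ := hN K f a r hr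
  have hev : ∀ᶠ t in 𝓝 r, ∀ i ∈ Finset.range (f.d + 1), Iw f a r < i →
      vI f a t i < vI f a t (Iw f a r) := by
    rw [Filter.eventually_all_finset]
    intro i _
    by_cases hi : Iw f a r < i
    · have h1 : vI f a r i < vI f a r (Iw f a r) := by
        rw [hI]
        exact hlt i hi
      exact ((vI_cont f a i).continuousAt.eventually_lt (vI_cont f a _).continuousAt h1).mono
        fun t ht _ => ht
    · exact Eventually.of_forall fun t h => absurd h hi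
  obtain ⟨r', hr', h⟩ := interval_of_ev hev
  refine ⟨r', hr', fun t h1 h2 => ?_⟩
  have ht : 0 < t := hr.trans h1
  obtain ⟨⟨-, -, hI', -, hd, hle, -, -⟩, -⟩ := hN K f a t ht
  by_contra hcon
  push Not at hcon
  have h3 := h t h1 h2 (Iw f a t) (Finset.mem_range.2 (by omega)) hcon
  rw [hI'] at h3
  exact absurd (hle (Iw f a r)) (not_le.2 h3)

theorem nt3 (hN : S_NWI.{u}) : S_NT3.{u} := by
  intro K _ _ _ f a r hr hv
  obtain ⟨⟨hM, hj, -, -, -, hle, hlt, -⟩, -⟩ := hN K f a r hr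
  -- the dominant term
  obtain ⟨c0, κ, h0, hF⟩ : ∃ (c0 : K) (κ : ℕ), ‖c0‖ * r ^ κ = Mx f a r ∧
      ∀ t, 0 ≤ t → ‖c0‖ * t ^ κ ≤ vI f a t (Nw f a r) := by
    rw [vI_eq f a hr.le] at hj
    rcases max_choice (‖(taylor a (f.P - C a * f.Q)).coeff (Nw f a r)‖ * r ^ (Nw f a r))
      (‖(taylor a f.Q).coeff (Nw f a r)‖ * r ^ (Nw f a r + 1)) with h | h
    · rw [h] at hj
      refine ⟨_, _, hj, fun t ht => ?_⟩
      rw [vI_eq f a ht]
      exact le_max_left _ _
    · rw [h] at hj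
      refine ⟨_, _, hj, fun t ht => ?_⟩
      rw [vI_eq f a ht]
      exact le_max_right _ _
  have hev : ∀ᶠ t in 𝓝 r, ∀ i ∈ Finset.range (f.d + 1),
      (‖(taylor a (f.P - C a * f.Q)).coeff i‖ * t ^ i ≤ ‖c0‖ * t ^ κ ∧
        ‖(taylor a f.Q).coeff i‖ * t ^ (i + 1) ≤ ‖c0‖ * t ^ κ) ∧
      (i < Nw f a r → vI f a t i < ‖c0‖ * t ^ κ) := by
    rw [Filter.eventually_all_finset]
    intro i _
    have h1 := hle i
    rw [vI_eq f a hr.le] at h1
    have h2 := ev_term hr hM hv ((le_max_left _ _).trans h1) h0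
    have h3 := ev_term hr hM hv ((le_max_right _ _).trans h1) h0
    have h4 : ∀ᶠ t in 𝓝 r, (i < Nw f a r → vI f a t i < ‖c0‖ * t ^ κ) := by
      by_cases hi : i < Nw f a r
      · have h5 : vI f a r i < ‖c0‖ * r ^ κ := by
          rw [h0]
          exact hlt i hi
        have h6 : ContinuousAt (fun t : ℝ => ‖c0‖ * t ^ κ) r := by fun_prop
        exact ((vI_cont f a i).continuousAt.eventually_lt h6 h5).mono fun t ht _ => ht
      · exact Eventually.of_forall fun t h => absurd h hi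
    filter_upwards [h2, h3, h4] with t g1 g2 g3
    exact ⟨⟨g1, g2⟩, g3⟩
  obtain ⟨r', hr', h⟩ := interval_of_ev hev
  refine ⟨r', hr', fun t h1 h2 => ?_⟩
  have ht : 0 < t := hr.trans h1
  obtain ⟨⟨-, hj', -, hNI, hd, hle', hlt', -⟩, -⟩ := hN K f a t ht
  have hMt : Mx f a t ≤ ‖c0‖ * t ^ κ := by
    rw [← hj', vI_eq f a ht.le]
    have h3 := (h t h1 h2 (Nw f a t) (Finset.mem_range.2 (by omega))).1
    exact max_le h3.1 h3.2
  apply le_antisymm
  · by_contra hcon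
    push Not at hcon
    have h4 := hlt' (Nw f a r) hcon
    exact absurd (hMt.trans (hF t ht.le)) (not_le.2 h4)
  · by_contra hcon
    push Not at hcon
    have h5 := (h t h1 h2 (Nw f a t) (Finset.mem_range.2 (by omega))).2 hcon
    rw [hj'] at h5
    exact absurd ((hF t ht.le).trans (hle' _)) (not_le.2 h5)

theorem main (hN : S_NWI.{u}) : S_IRC.{u} ∧ S_NT3.{u} := ⟨irc hN, nt3 hN⟩

end Pool.Agent.W369.BE
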