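import Pool.Agent.W851.BE.Stm

/-! Project BE, task BE-TAB: upward germs at the points of type A and B. -/

set_option autoImplicit false

open Polynomial Topology Filter MeasureTheory
open scoped ENNReal

namespace Pool.Agent.W369.BE

open Pool.Agent.W95.BK Pool.Agent.W851.BE

universe u

section

variable {K : Type u} [NontriviallyNormedField K] [IsUltrametricDist K]

theorem gn_add (a : K) {t : ℝ} (ht : 0 < t) (g h : K[X]) :
    gn a t (g + h) ≤ max (gn a t g) (gn a t h) := (gauss a t ht).map_add' g h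

theorem gn_C_mul (a : K) {t : ℝ} (ht : 0 < t) (c : K) (h : K[X]) :
    gn a t (C c * h) = ‖c‖ * gn a t h := by
  have h1 := (gauss a t ht).map_mul' (C c) h
  have h2 := (gauss a t ht).map_C' c
  have h3 : gn a t (C c * h) = gn a t (C c) * gn a t h := h1
  have h4 : gn a t (C c) = ‖c‖ := h2
  rw [h3, h4]

theorem gn_nonneg (a : K) {t : ℝ} (ht : 0 < t) (h : K[X]) : 0 ≤ gn a t h :=
  (gauss a t ht).nonneg' h

theorem le_gn [IsAlgClosed K] (hP : S_NPOL.{u}) (a : K) {t : ℝ} (ht : 0 < t) (h : K[X]) (i : ℕ) :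
    ‖(taylor a h).coeff i‖ * t ^ i ≤ gn a t h := by
  by_cases h0 : h = 0
  · subst h0
    rw [map_zero, coeff_zero, norm_zero, zero_mul]
    exact gn_nonneg a ht 0
  · exact (hP K h a t h0 ht).2.1 i

end

theorem tb1 (hZ : S_ZT.{u}) (hL : S_LDEX.{u}) (hS : S_S1.{u}) (hI : S_IRC.{u}) : S_TB1.{u} := by
  intro K _ _ _ f a r hB
  obtain ⟨hr, -, -, -, hB5⟩ := hB
  obtain ⟨r', hr', h⟩ := hI K f a r hr
  refine ⟨r', hr', fun t h1 h2 hv hfix => ?_⟩
  obtain ⟨c, hc⟩ := hv
  have ht : 0 < t := hr.trans h1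
  obtain ⟨m, hm1, hm2, -⟩ := hL K f (gauss a t ht) ((hZ K).2.2.1 a t ht)
  rw [zt_pos a ht] at hfix
  have h3 := hS K f a c t ht hc hfix m hm2 {a} (by
      intro z hz
      rw [Finset.mem_singleton] at hz
      rw [hz, sub_self, norm_zero]
      exact ht.le) (by
      intro z hz z' hz' hne
      rw [Finset.mem_singleton] at hz hz'
      exact absurd (hz.trans hz'.symm) hne)
  rw [Finset.sum_singleton] at h3
  have h4 := h t h1 h2
  have h5 := hB5 t h1
  omega

theorem ta1 (hN : S_NWI.{u}) (hP : S_NPOL.{u}) (hA : S_ACT.{u}) (hO : S_ISO.{u}) (hZ : S_ZT.{u})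
    (hL : S_LDEX.{u}) (hS : S_S1.{u}) : S_TA1.{u} := by
  intro K _ _ _ f a r hT
  obtain ⟨hr, -, -, -, r', hr', hNI⟩ := hT
  refine ⟨r', hr', ?_⟩
  obtain ⟨⟨hM, -, hIr, -, -, -, -, -⟩, -, hlog, hmono, -, hjump⟩ := hN K f a r hr
  set I := Iw f a r with hIdef
  have hI1 : 1 ≤ I := by omega
  -- the index `Nw` on the interval
  have hNw : ∀ t, r < t → t < r' → Nw f a t + 1 = I := by
    intro t h1 h2
    have g1 := hjump t h1
    have g2 := (hN K f a t (hr.trans h1)).2.2.2.1 r' h2.le
    omega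
  set p : ℕ → K := fun i => (taylor a (f.P - C a * f.Q)).coeff i with hp
  set q : ℕ → K := fun i => (taylor a f.Q).coeff i with hq
  set m : ℝ := Mx f a r / r ^ I with hm
  have hrI : 0 < r ^ I := pow_pos hr I
  have hmpos : 0 < m := div_pos hM hrI
  -- the maximum on the interval
  have hMx : ∀ t, r < t → t < r' → Mx f a t = m * t ^ I ∧ max ‖p I‖ (t * ‖q I‖) = m := by
    intro t h1 h2
    have ht : 0 < t := hr.trans h1
    have htI : 0 < t ^ I := pow_pos ht I
    obtain ⟨⟨hMt, -, -, -, -, hle, -, -⟩, -⟩ := hN K f a t ht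
    have g1 := (hlog t h1).2
    have g2 : ((Nw f a t : ℝ) + 1) = I := by exact_mod_cast hNw t h1 h2
    rw [g2] at g1
    have hup : Mx f a t ≤ m * t ^ I := by
      have g3 : Real.log (Mx f a t) ≤ Real.log (m * t ^ I) := by
        have g4 : Real.log (m * t ^ I) = Real.log (Mx f a r) + I * Real.log (t / r) := by
          rw [hm, Real.log_mul (by positivity) (by positivity),
            Real.log_div hM.ne' hrI.ne', Real.log_pow, Real.log_pow,
            Real.log_div ht.ne' hr.ne']
          ring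
        rw [g4]
        linarith
      exact (Real.log_le_log_iff hMt (by positivity)).1 g3
    have hv : vI f a t I = max ‖p I‖ (t * ‖q I‖) * t ^ I := rfl
    have hv0 : max ‖p I‖ (r * ‖q I‖) * r ^ I = Mx f a r := hIr
    have hlow : m ≤ max ‖p I‖ (t * ‖q I‖) := by
      rw [hm, div_le_iff₀ hrI, ← hv0]
      refine mul_le_mul_of_nonneg_right ?_ hrI.le
      exact max_le_max (le_refl _) (mul_le_mul_of_nonneg_right h1.le (norm_nonneg _))
    have h5 := hle I
    rw [hv] at h5
    have h6 : max ‖p I‖ (t * ‖q I‖) ≤ m := by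
      have h7 : max ‖p I‖ (t * ‖q I‖) * t ^ I ≤ m * t ^ I := h5.trans hup
      exact le_of_mul_le_mul_right h7 htI
    have h8 := le_antisymm h6 hlow
    refine ⟨le_antisymm hup ?_, h8⟩
    rw [h8] at h5
    exact h5
  -- `|p_I| = m`, `t |q_I| < m`
  have hqI : ∀ t, r < t → t < r' → t * ‖q I‖ < m := by
    intro t h1 h2
    have g1 := (hMx t h1 h2).2
    have g2 := (hMx ((t + r') / 2) (by linarith) (by linarith)).2
    have g3 : (t + r') / 2 * ‖q I‖ ≤ m := by
      rw [← g2]; exact le_max_right _ _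
    rcases (norm_nonneg (q I)).eq_or_lt with h | h
    · rw [← h, mul_zero]; exact hmpos
    · nlinarith
  have hpI : ‖p I‖ = m := by
    have g1 := (hMx ((r + r') / 2) (by linarith) (by linarith)).2
    have g2 := hqI ((r + r') / 2) (by linarith) (by linarith)
    rcases max_choice ‖p I‖ ((r + r') / 2 * ‖q I‖) with h | h
    · rw [← h]; exact g1
    · rw [h] at g1
      exact absurd g1 g2.ne
  -- `|q_{I-1}| = m`
  have hq1 : ∀ t, r < t → t < r' → max ‖p (I - 1)‖ (t * ‖q (I - 1)‖) = m * t := by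
    intro t h1 h2
    have ht : 0 < t := hr.trans h1
    obtain ⟨⟨-, hNt, -, -, -, -, -, -⟩, -⟩ := hN K f a t ht
    have e : Nw f a t = I - 1 := by have := hNw t h1 h2; omega
    rw [e, (hMx t h1 h2).1] at hNt
    have hv : vI f a t (I - 1) = max ‖p (I - 1)‖ (t * ‖q (I - 1)‖) * t ^ (I - 1) := rfl
    rw [hv] at hNt
    have e2 : m * t ^ I = (m * t) * t ^ (I - 1) := by
      have e3 : t ^ I = t * t ^ (I - 1) := by
        rw [← pow_succ']
        congr 1
        omega
      rw [e3]; ring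
    rw [e2] at hNt
    exact mul_right_cancel₀ (pow_pos ht (I - 1)).ne' hNt
  have hqm : ‖q (I - 1)‖ = m := by
    have t1 : r < r + (r' - r) / 3 := by linarith
    have t1' : r + (r' - r) / 3 < r' := by linarith
    have t2 : r < r + 2 * (r' - r) / 3 := by linarith
    have t2' : r + 2 * (r' - r) / 3 < r' := by linarith
    have g1 := hq1 _ t1 t1'
    have g2 := hq1 _ t2 t2'
    have hle : ‖q (I - 1)‖ ≤ m := by
      have h3 : (r + (r' - r) / 3) * ‖q (I - 1)‖ ≤ m * (r + (r' - r) / 3) := by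
        rw [← g1]; exact le_max_right _ _
      rw [mul_comm m] at h3
      exact le_of_mul_le_mul_left h3 (by linarith)
    by_contra hne
    have hlt : ‖q (I - 1)‖ < m := lt_of_le_of_ne hle hne
    have key : ∀ t, 0 < t → max ‖p (I - 1)‖ (t * ‖q (I - 1)‖) = m * t → ‖p (I - 1)‖ = m * t := by
      intro t ht h
      rcases max_choice ‖p (I - 1)‖ (t * ‖q (I - 1)‖) with h' | h'
      · rw [← h', h]
      · rw [h'] at h
        have : t * ‖q (I - 1)‖ < t * m := mul_lt_mul_of_pos_left hlt ht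
        rw [mul_comm m] at h
        exact absurd h this.ne
    have k1 := key _ (by linarith) g1
    have k2 := key _ (by linarith) g2
    rw [k1] at k2
    have k3 := mul_left_cancel₀ hmpos.ne' k2
    linarith
  intro t h1 h2 hv
  obtain ⟨c, hc⟩ := hv
  have ht : 0 < t := hr.trans h1
  obtain ⟨⟨-, hNt, -, -, -, -, -, -⟩, hMg, -⟩ := hN K f a t ht
  have hMt := (hMx t h1 h2).1
  have htI : t ^ I = t * t ^ (I - 1) := by
    rw [← pow_succ']
    congr 1
    omega
  have hgQ : gn a t f.Q = m * t ^ (I - 1) := by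
    apply le_antisymm
    · have g1 : t * gn a t f.Q ≤ m * t ^ I := by
        rw [← hMt, hMg]; exact le_max_right _ _
      rw [htI] at g1
      have g2 : t * gn a t f.Q ≤ t * (m * t ^ (I - 1)) := by linarith
      exact le_of_mul_le_mul_left g2 ht
    · have g1 := le_gn hP a ht f.Q (I - 1)
      have g2 : ‖(taylor a f.Q).coeff (I - 1)‖ = m := hqm
      rw [g2] at g1
      exact g1
  have hgQpos : 0 < gn a t f.Q := by rw [hgQ]; positivity
  -- the values near `a`
  have hgP : ∀ b : K, ‖b - a‖ ≤ t → gn a t (f.P - C b * f.Q) = m * t ^ I := by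
    intro b hb
    have e : f.P - C b * f.Q = (f.P - C a * f.Q) + C (a - b) * f.Q := by
      rw [C_sub]; ring
    have hab : ‖a - b‖ ≤ t := by rw [norm_sub_rev]; exact hb
    apply le_antisymm
    · rw [e]
      refine (gn_add a ht _ _).trans (max_le ?_ ?_)
      · rw [← hMt, hMg]; exact le_max_left _ _
      · rw [gn_C_mul a ht, ← hMt, hMg]
        exact (mul_le_mul_of_nonneg_right hab hgQpos.le).trans (le_max_right _ _)
    · have g1 := le_gn hP a ht (f.P - C b * f.Q) I
      have e2 : (taylor a (f.P - C b * f.Q)).coeff I = p I + (a - b) * q I := by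
        rw [e, map_add, coeff_add, taylor_mul, taylor_C, coeff_C_mul]
      have g3 : ‖(a - b) * q I‖ < ‖p I‖ := by
        rw [norm_mul, hpI]
        exact (mul_le_mul_of_nonneg_right hab (norm_nonneg _)).trans_lt (hqI t h1 h2)
      have g2 : ‖(taylor a (f.P - C b * f.Q)).coeff I‖ = m := by
        rw [e2, ← hpI]
        rw [IsUltrametricDist.norm_add_eq_max_of_norm_ne_norm g3.ne', max_eq_left g3.le]
      rw [g2] at g1
      exact g1
  have hHK := (hZ K).2.2.1 a t ht
  obtain ⟨y, -, hy, -, hlam⟩ := (hA K f).1 (gauss a t ht) hHK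
  have hlam' : ∀ b : K, ‖b - a‖ ≤ t → lam y b = t := by
    intro b hb
    have g1 : lam y b = gn a t (f.P - C b * f.Q) / gn a t f.Q := hlam b
    rw [g1, hgP b hb, hgQ, htI]
    have : t ^ (I - 1) ≠ 0 := (pow_pos ht _).ne'
    field_simp
  have hyz : (y : P1B K) = zt a t := by
    refine (hZ K).2.2.2 a t y ht fun b => ?_
    by_cases hb : ‖b - a‖ ≤ t
    · rw [hlam' b hb, max_eq_right]
      rw [norm_sub_rev]; exact hb
    · push Not at hb
      have g1 := hlam' a (by rw [sub_self, norm_zero]; exact ht.le)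
      have g2 : ‖b - a‖ = ‖a - b‖ := norm_sub_rev _ _
      have g3 := (hO K y b a).2.2.1 (by rw [g1]; exact hb)
      rw [g3, g2, max_eq_left]
      rw [← g2]; exact hb.le
  have hfix : f.act (zt a t) = zt a t := by
    conv_lhs => rw [zt_pos a ht]
    rw [hy, hyz]
  refine ⟨hfix, ?_⟩
  obtain ⟨n, hn1, hn2, hn3⟩ := hL K f (gauss a t ht) hHK
  have hfix' := hfix
  rw [zt_pos a ht] at hfix'
  have h3 := hS K f a c t ht hc hfix' n hn2 {a} (by
      intro z hz
      rw [Finset.mem_singleton] at hz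
      rw [hz, sub_self, norm_zero]
      exact ht.le) (by
      intro z hz z' hz' hne
      rw [Finset.mem_singleton] at hz hz'
      exact absurd (hz.trans hz'.symm) hne)
  rw [Finset.sum_singleton] at h3
  have h4 := hNw t h1 h2
  have h5 := (hN K f a t ht).2.2.2.2.2 ((t + r') / 2) (by linarith)
  have h6 := hNw ((t + r') / 2) (by linarith) (by linarith)
  rw [zt_pos a ht, hn3]
  omega

theorem main (hN : S_NWI.{u}) (hP : S_NPOL.{u}) (hA : S_ACT.{u}) (hO : S_ISO.{u}) (hZ : S_ZT.{u})
    (hL : S_LDEX.{u}) (hS : S_S1.{u}) (hI : S_IRC.{u}) : S_TA1.{u} ∧ S_TB1.{u} :=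
  ⟨ta1 hN hP hA hO hZ hL hS, tb1 hZ hL hS hI⟩

end Pool.Agent.W369.BE
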